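import Pool.Agent.W336.CS.All

/-!
# Groups all of whose 2-generated subgroups are amenable have cost at most 1

This answers question Q1 of MP_7e9760_al: every countable group `G` in `Amen₂` has `C(G) ≤ 1`.
-/

set_option autoImplicit false

open MeasureTheory

namespace Pool.Agent.Results.MP_7e9760_al.AmenTwoCost

/-- `G` is amenable: there is a left invariant finitely additive probability measure defined on all
subsets of `G`. -/
def Amenable (G : Type) [Group G] : Prop :=
  ∃ m : Set G → ℝ, (∀ A, 0 ≤ m A) ∧ m Set.univ = 1 ∧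
    (∀ A B, Disjoint A B → m (A ∪ B) = m A + m B) ∧
    ∀ (g : G) (A : Set G), m ((fun x => g * x) '' A) = m A

/-- The class `Amen₂`: every subgroup generated by 2 elements is amenable. -/
def Amen2 (G : Type) [Group G] : Prop :=
  ∀ a b : G, Amenable (Subgroup.closure ({a, b} : Set G))

/-- `(φ i : A i → X)` is a graphing of the action of `G` on `(X, μ)`: a countable family of Borel
bijections `φ i` from the Borel set `A i` onto the Borel set `φ i '' A i`, with `φ i x` in the orbit
of `x`, such that almost surely the connected components of the graph joining each `x ∈ A i` to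
`φ i x` are exactly the `G`-orbits. -/
structure IsGraphing (G : Type) [Group G] {X : Type} [MeasurableSpace X] [MulAction G X]
    (μ : Measure X) (A : ℕ → Set X) (φ : ℕ → X → X) : Prop where
  dom : ∀ i, MeasurableSet (A i)
  meas : ∀ i, Measurable (φ i)
  inj : ∀ i, Set.InjOn (φ i) (A i)
  img : ∀ i, MeasurableSet (φ i '' A i)
  orb : ∀ i, ∀ x ∈ A i, φ i x ∈ MulAction.orbit G x
  conn : ∀ᵐ x ∂μ, ∀ y : X,
    Relation.EqvGen (fun y z : X => ∃ i, y ∈ A i ∧ z = φ i y) x y ↔ y ∈ MulAction.orbit G x

/-- The cost of the action: the infimum of the costs `∑ i, μ (A i)` of its graphings. -/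
noncomputable def actionCost (G : Type) [Group G] {X : Type} [MeasurableSpace X] [MulAction G X]
    (μ : Measure X) : ENNReal :=
  sInf {c | ∃ (A : ℕ → Set X) (φ : ℕ → X → X), IsGraphing G μ A φ ∧ c = ∑' i, μ (A i)}

/-- The cost `C(G)`: the infimum of the costs of the measure-preserving Borel actions of `G` on
standard Borel probability spaces which are free outside a null set. -/
noncomputable def groupCost (G : Type) [Group G] : ENNReal :=
  sInf {c | ∃ (X : Type) (_ : MeasurableSpace X) (_ : StandardBorelSpace X) (μ : Measure X)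
    (_ : IsProbabilityMeasure μ) (_ : MulAction G X),
    (∀ g : G, MeasurePreserving (fun x : X => g • x) μ μ) ∧
    (∀ᵐ x ∂μ, ∀ g : G, g • x = x → g = 1) ∧ c = actionCost G μ}

/-- **Every countable group all of whose 2-generated subgroups are amenable has cost at most 1.** -/
theorem result : ∀ (G : Type) [Group G] [Countable G], Amen2 G → groupCost G ≤ 1 := by
  intro G _ _ h2
  refine le_of_forall_pos_le_add (fun ε hε => ?_)
  obtain ⟨X, h1, h2, μ, h3, h4, h5, h6, A, s, h7, h8, h9⟩ :=
    Pool.Agent.W336.CS.cost_le (G := G) h2 ε hε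
  refine le_trans ?_ h9
  refine le_trans (sInf_le ⟨X, h1, h2, μ, h3, h4, h5, h6, rfl⟩) ?_
  have hinj : ∀ g : G, Function.Injective (fun x : X => g • x) := fun g => MulAction.injective g
  refine sInf_le ⟨A, fun i x => s i • x, ?_, rfl⟩
  refine ⟨h7, fun i => (h5 (s i)).measurable, fun i => (hinj (s i)).injOn, fun i => ?_,
    fun i x _ => ⟨s i, rfl⟩, ?_⟩
  · have : (fun x : X => s i • x) '' A i = (fun x : X => (s i)⁻¹ • x) ⁻¹' A i := by
      ext y
      constructor
      · rintro ⟨x, hx, rfl⟩
        simpa using hx
      · intro hy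
        exact ⟨(s i)⁻¹ • y, hy, by simp⟩
    rw [this]
    exact (h5 (s i)⁻¹).measurable (h7 i)
  · filter_upwards [h8] with x hx y
    constructor
    · intro h
      have key : ∀ y z : X, Relation.EqvGen (fun y z : X => ∃ i, y ∈ A i ∧ z = s i • y) y z →
          z ∈ MulAction.orbit G y := by
        intro y z h
        induction h with
        | rel x y h =>
          obtain ⟨i, _, rfl⟩ := h
          exact ⟨s i, rfl⟩
        | refl x => exact MulAction.mem_orbit_self x
        | symm x y _ ih => exact MulAction.mem_orbit_symm.1 ih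
        | trans x y z _ _ ih1 ih2 =>
          rw [← MulAction.orbit_eq_iff] at ih1 ih2 ⊢
          rw [ih2, ih1]
      exact key x y h
    · rintro ⟨g, rfl⟩
      have key : ∀ y : X, Relation.ReflTransGen
          (fun y z : X => ∃ i, (y ∈ A i ∧ z = s i • y) ∨ (z ∈ A i ∧ y = s i • z)) x y →
          Relation.EqvGen (fun y z : X => ∃ i, y ∈ A i ∧ z = s i • y) x y := by
        intro y h
        induction h with
        | refl => exact Relation.EqvGen.refl _
        | tail _ h ih =>
          refine Relation.EqvGen.trans _ _ _ ih ?_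
          obtain ⟨i, ⟨h, rfl⟩ | ⟨h, rfl⟩⟩ := h
          · exact Relation.EqvGen.rel _ _ ⟨i, h, rfl⟩
          · exact Relation.EqvGen.symm _ _ (Relation.EqvGen.rel _ _ ⟨i, h, rfl⟩)
      exact key _ (hx g)

end Pool.Agent.Results.MP_7e9760_al.AmenTwoCost
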